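import Mathlib
import Pool.Agent.H668R2.Ctr.Cmp

set_option autoImplicit false

/-!
# Contractibility of finite complexes of dimension at most three is undecidable

Fix a finitely presented group `U = ⟨x₁,…,x_m | R⟩` with unsolvable word problem. For a word `w` a
finite simplicial complex `X(w)` of dimension three is built, computably in `w`, which is
contractible exactly when `w = 1` in `U`.

Let `N` be the presentation complex of a free product of `2m + 2` copies of Higman's acyclic group
`⟨a,b,c,d | b^a = b², c^b = c², d^c = d², a^d = a²⟩`, with letters `a_p, b_p, c_p, d_p`, and put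
`x_i = c_{2+i} c_{2+m+i}⁻¹`. For each `g` among the words `r(x)` (`r ∈ R`) and the words
`a_p⁻¹ [w(x), c_{q(p)}]` (`p < 2m + 2`), attach to `N` a circle `T_g` and a disc along
`T_g⁻¹ g`, and glue in `N × T_g` along `N ∨ T_g`. This imposes that `g` commutes with `π₁(N)`.

* If `w = 1` in `U` then `w(x)` is central, so the commutators vanish, the `a_p` are central, and
  Higman's relations kill everything: `X(w)` is simply connected. The product parts
  `N × T_g` rel `N ∨ T_g` carry no homotopy since `N` is acyclic, and so `X(w)` is contractible.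
* If `w ≠ 1` in `U`, then an embedding theorem produces a quotient of `π₁(X(w))` in which all the
  circles `T_g` die and `a_0 = [w(x), c_1] ≠ 1`. So `X(w)` is not simply connected.
-/

namespace Pool.Agent.Results.MP_4c90a8_lc.Undecidable

open Pool.Agent.H668R2.Ctr

/-- The simplices (finite sets of vertices) listed by `L`. -/
def Simplices (L : List (List ℕ)) : Set (Finset ℕ) := {s | ∃ l ∈ L, l.toFinset = s}

/-- `L` is a list of all the simplices of a finite simplicial complex with vertices in `ℕ`: each
entry is a nonempty list of distinct vertices, and every nonempty subset of a listed simplex is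
listed. -/
def IsComplex (L : List (List ℕ)) : Prop :=
  (∀ l ∈ L, l ≠ [] ∧ l.Nodup) ∧
    ∀ s ∈ Simplices L, ∀ t : Finset ℕ, t ⊆ s → t.Nonempty → t ∈ Simplices L

/-- `L` has dimension at most `d`: every simplex has at most `d + 1` vertices. -/
def DimLE (d : ℕ) (L : List (List ℕ)) : Prop := ∀ s ∈ Simplices L, s.card ≤ d + 1

/-- The geometric realization of `L`, in barycentric coordinates. -/
def Realization (L : List (List ℕ)) : Set (ℕ → ℝ) :=
  {x | ∃ s ∈ Simplices L, (∀ v, 0 ≤ x v) ∧ (∀ v, v ∉ s → x v = 0) ∧ ∑ v ∈ s, x v = 1}

theorem realization_eq (L : List (List ℕ)) : Realization L = Rl (Simplices L) := rfl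

/-- No algorithm decides contractibility of finite simplicial complexes of dimension at most
three: there is no partial recursive function which on (the list of simplices of) every such
complex halts with the correct yes/no answer. -/
theorem result : ¬ ∃ f : List (List ℕ) →. Bool, Partrec f ∧
    ∀ L : List (List ℕ), IsComplex L → DimLE 3 L →
      ∃ b ∈ f L, (b = true ↔ ContractibleSpace (Realization L)) := by
  rintro ⟨f, hf, h⟩
  obtain ⟨L, hL, h1, h2, h3⟩ := reduction
  have hC : ∀ n, IsComplex (L n) := fun n => ⟨fun l hl => ⟨(h1 n l hl).1, (h1 n l hl).2.1⟩,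
    fun s hs t ht hn => (h2 n).2 s hs t ht hn⟩
  have hD : ∀ n, DimLE 3 (L n) := by
    rintro n s ⟨l, hl, rfl⟩
    exact (List.toFinset_card_le l).trans (h1 n l hl).2.2
  have hdom : ∀ n, (f (L n)).Dom := by
    intro n
    obtain ⟨b, hb, _⟩ := h (L n) (hC n) (hD n)
    exact Part.dom_iff_mem.2 ⟨b, hb⟩
  have hg : Computable fun n => (f (L n)).get (hdom n) :=
    (hf.comp hL).of_eq fun n => (Part.some_get (hdom n)).symm
  apply h3
  rw [ComputablePred.computable_iff]
  refine ⟨fun n => (f (L n)).get (hdom n), hg, ?_⟩
  funext n
  obtain ⟨b, hb, hb'⟩ := h (L n) (hC n) (hD n)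
  have e : (f (L n)).get (hdom n) = b := Part.get_eq_of_mem hb (hdom n)
  change ContractibleSpace (Realization (L n)) = ((f (L n)).get (hdom n) = true)
  rw [e]
  exact propext hb'.symm

end Pool.Agent.Results.MP_4c90a8_lc.Undecidable
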